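import Pool.Agent.Helper47.RFn.GoalsE
import Pool.Agent.Helper39.RFn.INSA
import Pool.Agent.Helper65.RFn.RP2

/-!
# Project RFn, packet NRO: behaviour of the bundle of a flow at time `0`
-/

set_option autoImplicit false

open Finset Pool.Agent.Helper47.RFn

namespace Pool.Agent.Helper67.RFn.Nro

/-! ### formulas of the moving frame in a subalgebra -/

section
variable {n : ℕ} {𝒜 : Type} [CommRing 𝒜] [Algebra ℝ 𝒜] {e : Ix n → Derivation ℝ 𝒜 𝒜} {n0 : Ix n → 𝒜}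
  {S : Subalgebra ℝ 𝒜} {A θ : Ix n → Ix n → 𝒜}

theorem S_ite (p : Prop) [Decidable p] : (if p then (1 : 𝒜) else 0) ∈ S := by
  split_ifs
  · exact S.one_mem
  · exact S.zero_mem

theorem S_dl (b c : Ix n) : (if b = c then (1 : 𝒜) else 0) ∈ S := S_ite _

theorem S_Fd (hE : ∀ i f, f ∈ S → e i f ∈ S) (hA : ∀ a i, A a i ∈ S) (a : Ix n) {f : 𝒜}
    (hf : f ∈ S) : FR.Fd e A a f ∈ S := by
  unfold FR.Fd
  exact S.sum_mem fun i _ => S.mul_mem (hA a i) (hE i f hf)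

theorem S_nf (hn : ∀ i, n0 i ∈ S) (hA : ∀ a i, A a i ∈ S) (a : Ix n) : FR.nf n0 A a ∈ S := by
  unfold FR.nf
  exact S.sum_mem fun i _ => S.mul_mem (hA a i) (hn i)

theorem S_C (hE : ∀ i f, f ∈ S → e i f ∈ S) (hn : ∀ i, n0 i ∈ S) (hA : ∀ a i, A a i ∈ S)
    (hθ : ∀ i a, θ i a ∈ S) (a b c : Ix n) : FR.C e n0 A θ a b c ∈ S := by
  unfold FR.C
  refine S.add_mem (S.sum_mem fun j _ => S.mul_mem (S.sub_mem (S_Fd hE hA a (hA b j))
    (S_Fd hE hA b (hA a j))) (hθ j c)) (S.sub_mem (S.mul_mem (S_nf hn hA a) (S_dl b c))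
      (S.mul_mem (S_nf hn hA b) (S_dl a c)))

theorem S_Gam (hE : ∀ i f, f ∈ S → e i f ∈ S) (hn : ∀ i, n0 i ∈ S) (hA : ∀ a i, A a i ∈ S)
    (hθ : ∀ i a, θ i a ∈ S) (a b c : Ix n) : FR.Gam e n0 A θ a b c ∈ S := by
  unfold FR.Gam
  exact S.smul_mem (S.add_mem (S.sub_mem (S_C hE hn hA hθ a b c) (S_C hE hn hA hθ b c a))
    (S_C hE hn hA hθ c a b)) _

theorem S_R (hE : ∀ i f, f ∈ S → e i f ∈ S) (hn : ∀ i, n0 i ∈ S) (hA : ∀ a i, A a i ∈ S)
    (hθ : ∀ i a, θ i a ∈ S) (a b c d : Ix n) : FR.R e n0 A θ a b c d ∈ S := by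
  unfold FR.R FR.K
  have hG := S_Gam hE hn hA hθ
  refine S.neg_mem (S.sub_mem (S.add_mem (S.sub_mem (S_Fd hE hA a (hG b c d))
    (S_Fd hE hA b (hG a c d))) (S.sum_mem fun f _ => S.sub_mem (S.mul_mem (hG b c f) (hG a f d))
      (S.mul_mem (hG a c f) (hG b f d)))) (S.sum_mem fun f _ =>
        S.mul_mem (S_C hE hn hA hθ a b f) (hG f c d)))

theorem der_adjoin {G : Set 𝒜} (D : Derivation ℝ 𝒜 𝒜) (hD : ∀ g ∈ G, D g ∈ Algebra.adjoin ℝ G)
    {f : 𝒜} (hf : f ∈ Algebra.adjoin ℝ G) : D f ∈ Algebra.adjoin ℝ G := by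
  induction hf using Algebra.adjoin_induction with
  | mem x hx => exact hD x hx
  | algebraMap r => rw [Derivation.map_algebraMap]; exact Subalgebra.zero_mem _
  | add x y _ _ hx hy => rw [map_add]; exact Subalgebra.add_mem _ hx hy
  | mul x y hx hy hx' hy' =>
    rw [Derivation.leibniz, smul_eq_mul, smul_eq_mul]
    exact Subalgebra.add_mem _ (Subalgebra.mul_mem _ hx hy') (Subalgebra.mul_mem _ hy hx')

end

/-! ### elements which extend to `t = 0` -/

section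
variable {n : ℕ} {T : ℝ} (M : Mod n T)

/-- inclusion of the time interval -/
def inc {T : ℝ} (t : TI T) : Set.Ico (0 : ℝ) T := ⟨t, t.2.1.le, t.2.2⟩

/-- `h` extends `f` to `t = 0` -/
def ExH (f : M.B) (h : M.Z × Set.Ico (0 : ℝ) T → ℝ) : Prop :=
  Continuous h ∧ ∀ (z : M.Z) (t : TI T), M.ev z t f = h (z, inc t)

variable {M}

/-- uniform neighbourhood of time `0` -/
theorem near0 (hT : 0 < T) {P : M.Z × Set.Ico (0 : ℝ) T → Prop}
    (hP : ∀ z : M.Z, ∀ᶠ p in nhds (z, (⟨0, le_rfl, hT⟩ : Set.Ico (0 : ℝ) T)), P p) :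
    ∃ t0 > 0, t0 < T ∧ ∀ (z : M.Z) (t : Set.Ico (0 : ℝ) T), (t : ℝ) < t0 → P (z, t) := by
  have h1 : ∀ᶠ t in nhds (⟨0, le_rfl, hT⟩ : Set.Ico (0 : ℝ) T), ∀ z ∈ (Set.univ : Set M.Z), P (z, t) := by
    refine isCompact_univ.eventually_forall_of_forall_eventually fun z _ => ?_
    rw [nhds_swap (⟨0, le_rfl, hT⟩ : Set.Ico (0 : ℝ) T) z, Filter.eventually_map]
    exact hP z
  rw [nhds_subtype_eq_comap, Filter.eventually_comap] at h1
  obtain ⟨δ, hδ, h2⟩ := Metric.eventually_nhds_iff.mp h1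
  refine ⟨min δ (T / 2), lt_min hδ (by linarith), (min_le_right _ _).trans_lt (by linarith),
    fun z t ht => ?_⟩
  refine h2 (y := (t : ℝ)) ?_ t rfl z (Set.mem_univ _)
  rw [Real.dist_eq]
  have : |(t : ℝ) - 0| = t := by rw [sub_zero, abs_of_nonneg t.2.1]
  exact this.trans_lt (ht.trans_le (min_le_left _ _))

theorem exH_bd0 (hT : 0 < T) {f : M.B} {h : M.Z × Set.Ico (0 : ℝ) T → ℝ} (hh : ExH M f h) :
    ∃ C t0 : ℝ, 0 < t0 ∧ t0 < T ∧ ∀ (z : M.Z) (t : TI T), (t : ℝ) < t0 → |M.ev z t f| ≤ C := by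
  have hc : Continuous fun z : M.Z => h (z, (⟨0, le_rfl, hT⟩ : Set.Ico (0 : ℝ) T)) :=
    hh.1.comp (Continuous.prodMk continuous_id continuous_const)
  obtain ⟨C, hC⟩ := isCompact_univ.exists_bound_of_continuousOn hc.continuousOn
  have h1 : ∀ z : M.Z, ∀ᶠ p in nhds (z, (⟨0, le_rfl, hT⟩ : Set.Ico (0 : ℝ) T)), |h p| < C + 1 := by
    intro z
    have h2 : |h (z, (⟨0, le_rfl, hT⟩ : Set.Ico (0 : ℝ) T))| < C + 1 :=
      (hC z (Set.mem_univ _)).trans_lt (lt_add_one C)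
    exact hh.1.abs.continuousAt.eventually_lt_const h2
  obtain ⟨t0, h0, hT0, h3⟩ := near0 hT h1
  refine ⟨C + 1, t0, h0, hT0, fun z t ht => ?_⟩
  rw [hh.2]
  exact (h3 z (inc t) ht).le

theorem exH_ini (hT : 0 < T) {f : M.B} {h : M.Z × Set.Ico (0 : ℝ) T → ℝ} (hh : ExH M f h) {c : ℝ}
    (hc : ∀ z, c ≤ h (z, ⟨0, le_rfl, hT⟩)) : ∀ ε > 0, ∃ t0 > 0, t0 < T ∧ ∀ (z : M.Z) (t : TI T),
      (t : ℝ) < t0 → c - ε ≤ M.ev z t f := by
  intro ε hε
  have h1 : ∀ z : M.Z, ∀ᶠ p in nhds (z, (⟨0, le_rfl, hT⟩ : Set.Ico (0 : ℝ) T)), c - ε < h p := by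
    intro z
    have h2 : c - ε < h (z, (⟨0, le_rfl, hT⟩ : Set.Ico (0 : ℝ) T)) := by linarith [hc z]
    exact hh.1.continuousAt.eventually_const_lt h2
  obtain ⟨t0, h0, hT0, h3⟩ := near0 hT h1
  refine ⟨t0, h0, hT0, fun z t ht => ?_⟩
  rw [hh.2]
  exact (h3 z (inc t) ht).le

variable (M) in
/-- elements with an extension form a subalgebra -/
noncomputable def ES : Subalgebra ℝ M.B where
  carrier := {f | ∃ h, ExH M f h}
  mul_mem' := by
    rintro f g ⟨h, hh⟩ ⟨h', hh'⟩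
    exact ⟨fun p => h p * h' p, hh.1.mul hh'.1, fun z t => by rw [map_mul, hh.2, hh'.2]⟩
  add_mem' := by
    rintro f g ⟨h, hh⟩ ⟨h', hh'⟩
    exact ⟨fun p => h p + h' p, hh.1.add hh'.1, fun z t => by rw [map_add, hh.2, hh'.2]⟩
  algebraMap_mem' := fun c =>
    ⟨fun _ => c, continuous_const, fun z t => by rw [AlgHom.commutes]; rfl⟩

variable (M) in
/-- generators -/
def GG : Set M.B :=
  {f | (∃ a b, f = M.u a b) ∨
    ∃ v : ℝ → EE n → ℝ, JS T v ∧ SmFam (Set.Ico 0 T) v ∧ f = M.em v}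

variable (M) in
/-- the good subalgebra -/
noncomputable def KS : Subalgebra ℝ M.B := Algebra.adjoin ℝ (GG M)

theorem u_mem (a b : Ix n) : M.u a b ∈ KS M :=
  Algebra.subset_adjoin (Or.inl ⟨a, b, rfl⟩)

theorem em_mem {v : ℝ → EE n → ℝ} (hv : JS T v) (hs : SmFam (Set.Ico 0 T) v) :
    M.em v ∈ KS M :=
  Algebra.subset_adjoin (Or.inr ⟨v, hv, hs, rfl⟩)

theorem pt_ne (hM : M.Ax) (z : M.Z) : M.pt z ≠ 0 := by
  have h1 := hM.ptn z
  intro h2
  rw [h2, norm_zero] at h1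
  exact zero_ne_one h1

theorem fam_ct (hM : M.Ax) {v : ℝ → EE n → ℝ} (hv : SmFam (Set.Ico 0 T) v) :
    Continuous (fun p : M.Z × Set.Ico (0 : ℝ) T => v p.2 (M.pt p.1)) := by
  have h1 : Continuous (fun p : M.Z × Set.Ico (0 : ℝ) T => ((p.2 : ℝ), M.pt p.1)) :=
    (continuous_subtype_val.comp continuous_snd).prodMk (hM.ptc.comp continuous_fst)
  have h2 : ContinuousOn (fun p : ℝ × EE n => v p.1 p.2) (Set.Ico (0 : ℝ) T ×ˢ {0}ᶜ) := hv.cont []
  exact h2.comp_continuous h1 fun p => ⟨p.2.2, pt_ne hM p.1⟩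

theorem sm_ct (hM : M.Ax) {v : EE n → ℝ} (hv : Sm v) :
    Continuous (fun p : M.Z × Set.Ico (0 : ℝ) T => v (M.pt p.1)) :=
  hv.cd.continuousOn.comp_continuous (hM.ptc.comp continuous_fst) fun p => pt_ne hM p.1

theorem KS_ES (hM : M.Ax) (hEM : Goal_EM) (hT : 0 < T) : KS M ≤ ES M := by
  refine Algebra.adjoin_le ?_
  rintro g (⟨a, b, rfl⟩ | ⟨v, hv, hs, rfl⟩)
  · refine ⟨fun p => M.fr p.1 a b, ?_, fun z t => hM.uev z t a b⟩
    exact (continuous_apply_apply a b).comp (hM.frc.comp continuous_fst)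
  · exact ⟨fun p => v p.2 (M.pt p.1), fam_ct hM hs, fun z t => ((hEM n T hT M hM).1 v hv).2 z t⟩

theorem KS_e (hM : M.Ax) (hEM : Goal_EM) (h8 : Goal_C8) (hT : 0 < T) (i : Ix n) {f : M.B}
    (hf : f ∈ KS M) : M.e i f ∈ KS M := by
  refine der_adjoin _ ?_ hf
  rintro g (⟨a, b, rfl⟩ | ⟨v, hv, hs, rfl⟩)
  · rw [Pool.Agent.Helper39.RFn.Insa.e_apply]
    refine Subalgebra.sum_mem _ fun j _ => ?_
    rw [hM.ax.Lu, mul_zero]
    exact Subalgebra.zero_mem _
  · obtain ⟨h1, h2, -⟩ := (hEM n T hT M hM).2.2.1 v hv i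
    rw [h2]
    exact em_mem h1 ((h8 n _).2.2.2.2.2.1 v i hs)

theorem KS_U (hM : M.Ax) (hEM : Goal_EM) (hT : 0 < T) (c d : Ix n) {f : M.B}
    (hf : f ∈ KS M) : M.U c d f ∈ KS M := by
  refine der_adjoin _ ?_ hf
  rintro g (⟨a, b, rfl⟩ | ⟨v, hv, hs, rfl⟩)
  · rw [hM.ax.Uu]
    exact Subalgebra.sub_mem _ (Subalgebra.mul_mem _ (S_ite (S := KS M) _) (u_mem _ _))
      (Subalgebra.mul_mem _ (S_ite (S := KS M) _) (u_mem _ _))
  · rw [((hEM n T hT M hM).1 v hv).1.1 c d]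
    exact Subalgebra.zero_mem _

theorem js_nn {T : ℝ} (hFM : ∀ i, Sm (nn i : EE n → ℝ)) (i : Ix n) :
    JS T (fun _ => (nn i : EE n → ℝ)) := by
  refine ⟨?_, fun t _ _ => (hFM i).hom⟩
  exact (hFM i).cd.comp contDiffOn_fst fun p hp => hp.1

theorem n0_mem (hM : M.Ax) (hEM : Goal_EM) (h8 : Goal_C8) (hT : 0 < T) (i : Ix n) : M.n0 i ∈ KS M := by
  rw [← (hEM n T hT M hM).2.2.2.2.2 i]
  have h1 : SmFam (Set.Ico (0 : ℝ) T) (fun _ => (nn i : EE n → ℝ)) := (h8 n _).2.2.2.2.2.2.2.2.1 i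
  have h2 : ∀ i, Sm (nn i : EE n → ℝ) := fun i =>
    ((h8 n (Set.Ico 0 T)).2.2.2.2.2.2.2.2.1 i).sm 0 ⟨le_rfl, hT⟩
  exact em_mem (js_nn h2 i) h1

/-! ### the bundle -/

variable {A θ : ℝ → MF n}

theorem KS_H (hM : M.Ax) (hEM : Goal_EM) (h8 : Goal_C8) (hT : 0 < T) {A' θ' : Ix n → Ix n → M.B}
    (hA : ∀ a i, A' a i ∈ KS M) (hθ : ∀ i a, θ' i a ∈ KS M) (a : Ix n) {f : M.B} (hf : f ∈ KS M) :
    Pool.Agent.Helper39.RFn.Insa.Hh M.toBA A' θ' a f ∈ KS M := by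
  rw [Pool.Agent.Helper39.RFn.Insa.H_apply]
  refine Subalgebra.sum_mem _ fun b _ => Subalgebra.mul_mem _ (u_mem a b) ?_
  unfold Pool.Agent.Helper39.RFn.Insa.Lo Pool.Agent.Helper39.RFn.Insa.Gm
  refine Subalgebra.add_mem _ (Subalgebra.sum_mem _ fun i _ => Subalgebra.mul_mem _ (hA b i)
    (KS_e hM hEM h8 hT i hf)) (Subalgebra.smul_mem _ (Subalgebra.sum_mem _ fun c _ =>
      Subalgebra.sum_mem _ fun d _ => Subalgebra.mul_mem _ ?_ (KS_U hM hEM hT c d hf)) _)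
  exact S_Gam (fun i f hf => KS_e hM hEM h8 hT i hf) (n0_mem hM hEM h8 hT) hA hθ b c d

theorem m_sm {S : Subalgebra ℝ M.B} (f : Ix n → Ix n → M.B) (h : ∀ a b, f a b ∈ S) (r : ℝ) :
    r • ∑ a, ∑ b, f a b ∈ S :=
  Subalgebra.smul_mem _ (Subalgebra.sum_mem _ fun a _ => Subalgebra.sum_mem _ fun b _ => h a b) _

theorem m_sq {S : Subalgebra ℝ M.B} (f g : Ix n → M.B) (hf : ∀ a, f a ∈ S) (hg : ∀ a, g a ∈ S) :
    ∑ a, f a * g a ∈ S :=
  Subalgebra.sum_mem _ fun a _ => Subalgebra.mul_mem _ (hf a) (hg a)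

theorem m_s1 {S : Subalgebra ℝ M.B} (f : Ix n → M.B) (hf : ∀ a, f a ∈ S) : ∑ a, f a ∈ S :=
  Subalgebra.sum_mem _ fun a _ => hf a

/-- everything which is needed about the bundle of a flow -/
structure Ctx (M : Mod n T) (A θ : ℝ → MF n) : Prop where
  hT : 0 < T
  hM : M.Ax
  kA : ∀ a i, M.emM A a i ∈ KS M
  kt : ∀ i a, M.emM θ i a ∈ KS M

theorem Ctx.H (c : Ctx M A θ) (hEM : Goal_EM) (h8 : Goal_C8) (a : Ix n) {f : M.B} (hf : f ∈ KS M) :
    (M.flB A θ).H a f ∈ KS M :=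
  KS_H c.hM hEM h8 c.hT c.kA c.kt a hf

theorem Ctx.Hw (c : Ctx M A θ) (hEM : Goal_EM) (h8 : Goal_C8) (w : List (Ix n)) {f : M.B}
    (hf : f ∈ KS M) : (M.flB A θ).Hw w f ∈ KS M := by
  induction w with
  | nil => exact hf
  | cons a w ih => exact c.H hEM h8 a ih

theorem Ctx.R (c : Ctx M A θ) (hEM : Goal_EM) (h8 : Goal_C8) (a b k d : Ix n) :
    (M.flB A θ).R a b k d ∈ KS M := by
  show (∑ i, ∑ j, ∑ k', ∑ l, M.u a i * M.u b j * M.u k k' * M.u d l *
    FR.R M.e M.n0 (M.emM A) (M.emM θ) i j k' l) ∈ KS M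
  refine Subalgebra.sum_mem _ fun i _ => Subalgebra.sum_mem _ fun j _ =>
    Subalgebra.sum_mem _ fun k' _ => Subalgebra.sum_mem _ fun l _ =>
      Subalgebra.mul_mem _ (Subalgebra.mul_mem _ (Subalgebra.mul_mem _ (Subalgebra.mul_mem _
        (u_mem a i) (u_mem b j)) (u_mem k k')) (u_mem d l)) ?_
  exact S_R (fun i f hf => KS_e c.hM hEM h8 c.hT i hf) (n0_mem c.hM hEM h8 c.hT) c.kA c.kt i j k' l

theorem Ctx.lam (c : Ctx M A θ) (hEM : Goal_EM) (h8 : Goal_C8) : (M.flB A θ).lam ∈ KS M := by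
  exact m_sm (S := KS M) (fun a b => (M.flB A θ).R a b a b) (fun a b => c.R hEM h8 a b a b) _

theorem Ctx.gg (c : Ctx M A θ) (hEM : Goal_EM) (h8 : Goal_C8) {f g : M.B} (hf : f ∈ KS M)
    (hg : g ∈ KS M) : (M.flB A θ).gg f g ∈ KS M := by
  exact m_sq (S := KS M) (fun a => (M.flB A θ).H a f) (fun a => (M.flB A θ).H a g)
    (fun a => c.H hEM h8 a hf) (fun a => c.H hEM h8 a hg)

theorem Ctx.Lap (c : Ctx M A θ) (hEM : Goal_EM) (h8 : Goal_C8) {f : M.B} (hf : f ∈ KS M) :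
    (M.flB A θ).Lap f ∈ KS M := by
  exact m_s1 (S := KS M) (fun a => (M.flB A θ).H a ((M.flB A θ).H a f))
    (fun a => c.H hEM h8 a (c.H hEM h8 a hf))

theorem Ctx.bd (c : Ctx M A θ) (hEM : Goal_EM) {f : M.B} (hf : f ∈ KS M) : (M.flB A θ).Bd0 f := by
  obtain ⟨h, hh⟩ := KS_ES c.hM hEM c.hT hf
  exact exH_bd0 c.hT hh

end

/-! ### rotations of tensors -/

section
variable {n : ℕ}

/-- rotated tensor -/
def rot (u : Ix n → Ix n → ℝ) (R : T4 (n + 1)) : T4 (n + 1) := fun a b c d =>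
  ∑ i, ∑ j, ∑ k, ∑ l, R i j k l * u a i * u b j * u c k * u d l

/-- rotated vector -/
def rotv (u : Ix n → Ix n → ℝ) (ν : Ix n → ℝ) (a : Ix n) : ℝ := ∑ b, u a b * ν b

theorem OO_tr {u : Ix n → Ix n → ℝ} (hu : u ∈ OO n) (a b : Ix n) :
    ∑ c, u c a * u c b = if a = b then 1 else 0 := by
  have h1 : (Matrix.of u) * (Matrix.of u).transpose = 1 := by
    ext a b
    rw [Matrix.mul_apply, Matrix.one_apply]
    exact hu a b
  have h3 : (Matrix.of u).transpose * (Matrix.of u) = 1 := mul_eq_one_comm.mp h1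
  have h2 := congrFun (congrFun h3 a) b
  rw [Matrix.mul_apply, Matrix.one_apply] at h2
  exact h2

theorem OO_mem_tr {u : Ix n → Ix n → ℝ} (hu : u ∈ OO n) : (fun a b => u b a) ∈ OO n :=
  fun a b => OO_tr hu a b

theorem dot_u {u : Ix n → Ix n → ℝ} (hu : ∀ b c, ∑ a, u a b * u a c = if b = c then 1 else 0)
    (x y : Ix n → ℝ) : ∑ a, (∑ b, u a b * x b) * (∑ c, u a c * y c) = ∑ b, x b * y b :=
  Pool.Agent.Helper39.RFn.Insa.dot_iso u hu x y

theorem rotv_back {u : Ix n → Ix n → ℝ} (hu : u ∈ OO n) (ν : Ix n → ℝ) (i : Ix n) :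
    ∑ b, u b i * rotv u ν b = ν i := by
  unfold rotv
  calc (∑ b, u b i * ∑ e, u b e * ν e) = ∑ e, (∑ b, u b i * u b e) * ν e := by
        simp only [Finset.mul_sum, Finset.sum_mul]
        rw [Finset.sum_comm]
        exact Finset.sum_congr rfl fun e _ => Finset.sum_congr rfl fun b _ => by ring
    _ = ν i := by
        simp only [OO_tr hu]
        simp

theorem isCurv_rot {u : Ix n → Ix n → ℝ} {R : T4 (n + 1)} (h : IsCurv R) : IsCurv (rot u R) := by
  refine ⟨fun a b c d => ?_, fun a b c d => ?_, fun a b c d => ?_, fun a b c d => ?_⟩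
  · unfold rot
    rw [Finset.sum_comm, ← Finset.sum_neg_distrib]
    refine Finset.sum_congr rfl fun j _ => ?_
    rw [← Finset.sum_neg_distrib]
    refine Finset.sum_congr rfl fun i _ => ?_
    rw [← Finset.sum_neg_distrib]
    refine Finset.sum_congr rfl fun k _ => ?_
    rw [← Finset.sum_neg_distrib]
    refine Finset.sum_congr rfl fun l _ => ?_
    rw [h.a12 i j k l]
    ring
  · unfold rot
    rw [← Finset.sum_neg_distrib]
    refine Finset.sum_congr rfl fun i _ => ?_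
    rw [← Finset.sum_neg_distrib]
    refine Finset.sum_congr rfl fun j _ => ?_
    rw [Finset.sum_comm, ← Finset.sum_neg_distrib]
    refine Finset.sum_congr rfl fun l _ => ?_
    rw [← Finset.sum_neg_distrib]
    refine Finset.sum_congr rfl fun k _ => ?_
    rw [h.a34 i j k l]
    ring
  · unfold rot
    calc (∑ i, ∑ j, ∑ k, ∑ l, R i j k l * u a i * u b j * u c k * u d l)
        = ∑ i, ∑ j, ∑ k, ∑ l, R k l i j * u c k * u d l * u a i * u b j := by
          refine Finset.sum_congr rfl fun i _ => Finset.sum_congr rfl fun j _ =>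
            Finset.sum_congr rfl fun k _ => Finset.sum_congr rfl fun l _ => ?_
          rw [h.pair i j k l]
          ring
      _ = _ := Pool.Agent.Helper65.RFn.swap22 (fun i j k l =>
          R k l i j * u c k * u d l * u a i * u b j)
  · have e1 : rot u R b c a d = ∑ i, ∑ j, ∑ k, ∑ l, R j k i l * u a i * u b j * u c k * u d l := by
      unfold rot
      calc (∑ j, ∑ k, ∑ i, ∑ l, R j k i l * u b j * u c k * u a i * u d l)
          = ∑ j, ∑ i, ∑ k, ∑ l, R j k i l * u b j * u c k * u a i * u d l :=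
            Finset.sum_congr rfl fun j _ => Finset.sum_comm
        _ = ∑ i, ∑ j, ∑ k, ∑ l, R j k i l * u b j * u c k * u a i * u d l := Finset.sum_comm
        _ = _ := Finset.sum_congr rfl fun i _ => Finset.sum_congr rfl fun j _ =>
            Finset.sum_congr rfl fun k _ => Finset.sum_congr rfl fun l _ => by ring
    have e2 : rot u R c a b d = ∑ i, ∑ j, ∑ k, ∑ l, R k i j l * u a i * u b j * u c k * u d l := by
      unfold rot
      calc (∑ k, ∑ i, ∑ j, ∑ l, R k i j l * u c k * u a i * u b j * u d l)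
          = ∑ i, ∑ k, ∑ j, ∑ l, R k i j l * u c k * u a i * u b j * u d l := Finset.sum_comm
        _ = ∑ i, ∑ j, ∑ k, ∑ l, R k i j l * u c k * u a i * u b j * u d l :=
            Finset.sum_congr rfl fun i _ => Finset.sum_comm
        _ = _ := Finset.sum_congr rfl fun i _ => Finset.sum_congr rfl fun j _ =>
            Finset.sum_congr rfl fun k _ => Finset.sum_congr rfl fun l _ => by ring
    rw [e1, e2]
    unfold rot
    simp only [← Finset.sum_add_distrib]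
    refine Finset.sum_eq_zero fun i _ => Finset.sum_eq_zero fun j _ =>
      Finset.sum_eq_zero fun k _ => Finset.sum_eq_zero fun l _ => ?_
    have h1 := h.bian i j k l
    linear_combination (u a i * u b j * u c k * u d l) * h1

theorem hor_rot {u : Ix n → Ix n → ℝ} (hu : u ∈ OO n) {ν : Ix n → ℝ} {R : T4 (n + 1)}
    (h : Hor ν R) : Hor (rotv u ν) (rot u R) := by
  refine ⟨isCurv_rot h.1, fun a b c => ?_⟩
  unfold rot
  have h1 : ∀ d, (∑ i, ∑ j, ∑ k, ∑ l, R i j k l * u a i * u b j * u c k * u d l) * rotv u ν d =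
      ∑ i, ∑ j, ∑ k, ∑ l, (R i j k l * u a i * u b j * u c k) * (u d l * rotv u ν d) := by
    intro d
    simp only [Finset.sum_mul]
    exact Finset.sum_congr rfl fun i _ => Finset.sum_congr rfl fun j _ =>
      Finset.sum_congr rfl fun k _ => Finset.sum_congr rfl fun l _ => by ring
  simp only [h1]
  rw [Finset.sum_comm]
  refine Finset.sum_eq_zero fun i _ => ?_
  rw [Finset.sum_comm]
  refine Finset.sum_eq_zero fun j _ => ?_
  rw [Finset.sum_comm]
  refine Finset.sum_eq_zero fun k _ => ?_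
  rw [Finset.sum_comm]
  have h2 : ∀ l, (∑ d, (R i j k l * u a i * u b j * u c k) * (u d l * rotv u ν d)) =
      (R i j k l * ν l) * (u a i * u b j * u c k) := by
    intro l
    rw [← Finset.mul_sum, rotv_back hu]
    ring
  simp only [h2]
  rw [← Finset.sum_mul, h.2, zero_mul]

theorem iso_rot {u : Ix n → Ix n → ℝ} (hu : u ∈ OO n) {ν : Ix n → ℝ} (hν : ∑ i, ν i ^ 2 = 1)
    {ι : Ix n → Fin n → ℝ} (h : Iso (rotv u ν) ι) : Iso ν (fun i a => ∑ b, u b i * ι b a) := by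
  refine ⟨hν, fun a b => ?_, fun a => ?_, fun i j => ?_⟩
  · rw [dot_u (u := fun i b => u b i) (fun b c => hu b c) (fun c => ι c a) (fun c => ι c b)]
    exact h.orth a b
  · calc (∑ i, ν i * ∑ b, u b i * ι b a) = ∑ b, rotv u ν b * ι b a := by
          unfold rotv
          simp only [Finset.mul_sum, Finset.sum_mul]
          rw [Finset.sum_comm]
          exact Finset.sum_congr rfl fun b _ => Finset.sum_congr rfl fun i _ => by ring
      _ = 0 := h.perp a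
  · calc (∑ a, (∑ b, u b i * ι b a) * ∑ c, u c j * ι c a)
        = ∑ b, ∑ c, (u b i * u c j) * ∑ a, ι b a * ι c a := by
          simp only [Finset.mul_sum, Finset.sum_mul]
          calc (∑ a, ∑ c, ∑ b, u b i * ι b a * (u c j * ι c a))
              = ∑ c, ∑ a, ∑ b, u b i * ι b a * (u c j * ι c a) := Finset.sum_comm
            _ = ∑ c, ∑ b, ∑ a, u b i * ι b a * (u c j * ι c a) :=
              Finset.sum_congr rfl fun c _ => Finset.sum_comm
            _ = ∑ b, ∑ c, ∑ a, u b i * ι b a * (u c j * ι c a) := Finset.sum_comm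
            _ = _ := Finset.sum_congr rfl fun b _ => Finset.sum_congr rfl fun c _ =>
              Finset.sum_congr rfl fun a _ => by ring
      _ = ∑ b, ∑ c, ((u b i * u c j) * (if b = c then 1 else 0)
            - (u b i * rotv u ν b) * (u c j * rotv u ν c)) := by
          refine Finset.sum_congr rfl fun b _ => Finset.sum_congr rfl fun c _ => ?_
          rw [h.compl b c]
          ring
      _ = ∑ b, u b i * u b j - (∑ b, u b i * rotv u ν b) * ∑ c, u c j * rotv u ν c := by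
          simp only [Finset.sum_sub_distrib]
          rw [Finset.sum_mul_sum]
          congr 1
          exact Finset.sum_congr rfl fun b _ => by simp
      _ = _ := by rw [OO_tr hu, rotv_back hu, rotv_back hu]

theorem pull_rot (u : Ix n → Ix n → ℝ) (ι : Ix n → Fin n → ℝ) (R : T4 (n + 1)) :
    pull ι (rot u R) = pull (fun i a => ∑ b, u b i * ι b a) R := by
  funext a b c d
  exact Pool.Agent.Helper65.RFn.expand (α := Ix n) (β := Ix n) R u
    (fun i => ι i a) (fun i => ι i b) (fun i => ι i c) (fun i => ι i d)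

end

/-! ### continuity of rotated tensors -/

section
variable {n : ℕ} {T : ℝ} {M : Mod n T}

theorem rot_ct (hM : M.Ax) {g : M.Z × Set.Ico (0 : ℝ) T → T4 (n + 1)}
    (hg : ∀ i j k l, Continuous fun p => g p i j k l) (a b c d : Ix n) :
    Continuous fun p : M.Z × Set.Ico (0 : ℝ) T => rot (M.fr p.1) (g p) a b c d := by
  have h1 : ∀ a b, Continuous fun p : M.Z × Set.Ico (0 : ℝ) T => M.fr p.1 a b := fun a b =>
    (continuous_apply_apply a b).comp (hM.frc.comp continuous_fst)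
  unfold rot
  refine continuous_finsetSum _ fun i _ => continuous_finsetSum _ fun j _ =>
    continuous_finsetSum _ fun k' _ => continuous_finsetSum _ fun l _ => ?_
  exact ((((hg i j k' l).mul (h1 a i)).mul (h1 b j)).mul (h1 c k')).mul (h1 d l)

/-- continuous tensors are close to their values at time `0` -/
theorem close0 (hT : 0 < T) {G G0 : M.Z × Set.Ico (0 : ℝ) T → T4 (n + 1)}
    (hG : ∀ a b c d, Continuous fun p => G p a b c d)
    (hG0 : ∀ a b c d, Continuous fun p => G0 p a b c d)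
    (he : ∀ z : M.Z, ∀ a b c d, G (z, ⟨0, le_rfl, hT⟩) a b c d = G0 (z, ⟨0, le_rfl, hT⟩) a b c d)
    {ε : ℝ} (hε : 0 < ε) :
    ∃ t0 > 0, t0 < T ∧ ∀ (z : M.Z) (t : Set.Ico (0 : ℝ) T), (t : ℝ) < t0 →
      ∀ a b c d, |G (z, t) a b c d - G0 (z, t) a b c d| < ε := by
  refine near0 hT (P := fun p => ∀ a b c d, |G p a b c d - G0 p a b c d| < ε) fun z => ?_
  simp only [Filter.eventually_all]
  intro a b k d
  have h4 : |G (z, ⟨0, le_rfl, hT⟩) a b k d - G0 (z, ⟨0, le_rfl, hT⟩) a b k d| < ε := by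
    rw [he z a b k d, sub_self, abs_zero]
    exact hε
  exact ((hG a b k d).sub (hG0 a b k d)).abs.continuousAt.eventually_lt_const h4

end

/-! ### the radial vector does not depend on time -/

section
variable {n : ℕ} {T : ℝ} {A θ : ℝ → MF n}

theorem rc_nfc (hFRF : Goal_FRF) {A θ : MF n} (h : Frm A θ) {x : EE n} (hx : x ≠ 0) (a : Ix n) :
    ∑ b, Rcf A θ a b x * nfc A b x = 0 := by
  obtain ⟨-, -, -, -, -, -, -, -, -, -, -, -, -, hC, hK, -⟩ := hFRF n A θ h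
  unfold Rcf
  simp only [Finset.sum_mul]
  rw [Finset.sum_comm]
  refine Finset.sum_eq_zero fun c _ => ?_
  have h1 : ∀ b, Rf A θ a c b c x * nfc A b x = -(Rf A θ a c c b x * nfc A b x) := by
    intro b
    rw [(hC x hx).a34 a c b c]
    ring
  simp only [h1, Finset.sum_neg_distrib]
  rw [hK x hx a c c, neg_zero]

theorem nfc_const (hFRF : Goal_FRF) (hFHM : Pool.Agent.Helper73.RFn.FhmStmt)
    (hF : FFlow (Set.Ico 0 T) A θ) {x : EE n} (hx : x ≠ 0) (a : Ix n) {t : ℝ} (h0 : 0 ≤ t)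
    (h1 : t < T) : nfc (A t) a x = nfc (A 0) a x := by
  have hd : ∀ s ∈ Set.Ico (0 : ℝ) T, HasDerivWithinAt (fun s => nfc (A s) a x) 0 (Set.Ico 0 T) s := by
    intro s hs
    have e1 : ∀ i, HasDerivWithinAt (fun s => A s x a i)
        (∑ b, Rcf (A s) (θ s) a b x * A s x b i) (Set.Ico 0 T) s := fun i =>
      (hF.flA a i).der [] x hx s hs
    have e2 : HasDerivWithinAt (fun s => ∑ i, A s x a i * nn i x)
        (∑ i, (∑ b, Rcf (A s) (θ s) a b x * A s x b i) * nn i x) (Set.Ico 0 T) s :=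
      HasDerivWithinAt.fun_sum fun i _ => (e1 i).mul_const _
    have e3 : (∑ i, (∑ b, Rcf (A s) (θ s) a b x * A s x b i) * nn i x) = 0 := by
      rw [← rc_nfc hFRF ((hFHM n).2 _ A θ hF |>.1 s hs) hx a]
      unfold nfc
      simp only [Finset.mul_sum, Finset.sum_mul]
      rw [Finset.sum_comm]
      exact Finset.sum_congr rfl fun b _ => Finset.sum_congr rfl fun i _ => by ring
    rw [e3] at e2
    exact e2
  refine constant_of_has_deriv_right_zero (f := fun s => nfc (A s) a x) (a := 0) (b := t) ?_ ?_ t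
    ⟨h0, le_rfl⟩
  · intro s hs
    exact ((hd s ⟨hs.1, hs.2.trans_lt h1⟩).continuousWithinAt).mono
      fun r hr => ⟨hr.1, hr.2.trans_lt h1⟩
  · intro s hs
    refine (hd s ⟨hs.1, hs.2.trans h1⟩).mono_of_mem_nhdsWithin ?_
    rw [mem_nhdsWithin]
    exact ⟨Set.Iio T, isOpen_Iio, hs.2.trans h1, fun r hr => ⟨hs.1.trans hr.2, hr.1⟩⟩

end

end Pool.Agent.Helper67.RFn.Nro

namespace Pool.Agent.Helper67.RFn

open Nro

theorem iniT_of (hFLB : Goal_FLB) (hFRF : Goal_FRF) (hFHM : Pool.Agent.Helper73.RFn.FhmStmt)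
    {n : ℕ} {T : ℝ} (hT : 0 < T) {M : Mod n T} (hM : M.Ax) {A θ : ℝ → MF n}
    (hF : FFlow (Set.Ico 0 T) A θ) (hA : MJ T A) (ht : MJ T θ) :
    ∀ δ l0 : ℝ, (∀ x, x ≠ 0 → l0 ≤ lamf (A 0) (θ 0) x ∧
      Pool.Agent.Helper73.RFn.PinF δ (A 0) (θ 0) x) → IniT (M.flB A θ) δ l0 := by
  have hI : Set.Ioo 0 T ⊆ Set.Ico 0 T := Set.Ioo_subset_Ico_self
  obtain ⟨-, -, -, hlam, hR, hnu, hvw⟩ := hFLB n T hT M hM (Set.Ico 0 T) A θ hI hF hA ht
  obtain ⟨hFr, fR, -⟩ := (hFHM n).2 (Set.Ico 0 T) A θ hF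
  intro δ l0 hl ε hε
  obtain ⟨t0, h0, hT0, h3⟩ := close0 (M := M) hT
    (G := fun p => rot (M.fr p.1) (fun i j k l => Rf (A p.2) (θ p.2) i j k l (M.pt p.1)))
    (G0 := fun p => rot (M.fr p.1) (fun i j k l => Rf (A 0) (θ 0) i j k l (M.pt p.1)))
    (rot_ct hM fun i j k l => fam_ct hM (fR i j k l))
    (rot_ct hM fun i j k l => sm_ct hM ((fR i j k l).sm 0 ⟨le_rfl, hT⟩))
    (fun z a b c d => rfl) hε
  refine ⟨t0, h0, hT0, fun z t htt => ?_⟩
  have hx := pt_ne hM z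
  have hFr0 := hFr 0 ⟨le_rfl, hT⟩
  obtain ⟨-, -, -, -, -, -, -, -, -, -, -, -, hn1, hC, hK, -⟩ := hFRF n (A 0) (θ 0) hFr0
  have hν : (M.flB A θ).nv z t = rotv (M.fr z) (fun a => nfc (A 0) a (M.pt z)) := by
    funext a
    refine (hnu z t a).trans ?_
    unfold rotv
    refine Finset.sum_congr rfl fun b _ => ?_
    rw [nfc_const hFRF hFHM hF hx b t.2.1.le t.2.2]
  have hor0 : Hor (fun a => nfc (A 0) a (M.pt z))
      (fun i j k l => Rf (A 0) (θ 0) i j k l (M.pt z)) := ⟨hC _ hx, hK _ hx⟩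
  refine ⟨rot (M.fr z) (fun i j k l => Rf (A 0) (θ 0) i j k l (M.pt z)), ?_, ?_, ?_⟩
  · rw [hν]
    exact hor_rot (hM.frO z) hor0
  · intro ι hι
    rw [hν] at hι
    have hι' := iso_rot (hM.frO z) (hn1 _ hx) hι
    rw [pull_rot]
    refine ⟨(hl _ hx).2 _ hι', ?_⟩
    have e1 := (Pool.Agent.Helper65.RFn.goal_RP2' n _ _ _ hι' hor0).2.2.2.2.1
    rw [e1]
    refine (hl _ hx).1.trans (le_of_eq ?_)
    unfold lamf
    rw [one_div, inv_mul_eq_div]
    rfl
  · intro a b k d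
    have e2 := h3 z (inc t) htt a b k d
    have e3 : (M.flB A θ).rv z t a b k d = rot (M.fr z) (fun i j k l =>
        Rf (A t) (θ t) i j k l (M.pt z)) a b k d := by
      refine (hR z t a b k d).trans ?_
      unfold rot
      exact Finset.sum_congr rfl fun i _ => Finset.sum_congr rfl fun j _ =>
        Finset.sum_congr rfl fun k' _ => Finset.sum_congr rfl fun l _ => by ring
    rw [e3]
    exact e2.le

/-- NRO. -/
theorem goal_NRO (hEM : Goal_EM) (hFLB : Goal_FLB) (hC8 : Goal_C8) (hFRF : Goal_FRF)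
    (hFHM : Pool.Agent.Helper73.RFn.FhmStmt) : Goal_NRO := by
  intro n T hT M hM A θ hF hA ht
  have hI : Set.Ioo 0 T ⊆ Set.Ico 0 T := Set.Ioo_subset_Ico_self
  have c : Ctx M A θ := ⟨hT, hM, fun a i => em_mem (hA a i) (hF.flA a i).fam,
    fun i a => em_mem (ht i a) (hF.flt i a).fam⟩
  obtain ⟨-, -, -, hlam, hR, hnu, hvw⟩ := hFLB n T hT M hM (Set.Ico 0 T) A θ hI hF hA ht
  obtain ⟨hFr, fR, -, fl, -, -, -, fgg⟩ := (hFHM n).2 (Set.Ico 0 T) A θ hF
  refine ⟨fun w a b k d => c.bd hEM (c.Hw hEM hC8 w (c.R hEM hC8 a b k d)),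
    fun w => c.bd hEM (c.Hw hEM hC8 w (c.lam hEM hC8)),
    c.bd hEM (c.gg hEM hC8 (c.lam hEM hC8) (c.lam hEM hC8)), ?_, ?_, ?_⟩
  · intro l0 hl
    exact exH_ini (f := (M.flB A θ).lam) hT ⟨fam_ct hM fl, fun z t => (hlam z t).1⟩
      fun z => hl _ (pt_ne hM z)
  · exact iniT_of hFLB hFRF hFHM hT hM hF hA ht
  · intro v hv hs
    have hk : M.em v ∈ KS M := em_mem hv hs
    refine ⟨c.bd hEM hk, c.bd hEM (c.Lap hEM hC8 hk), fun w => c.bd hEM (c.Hw hEM hC8 w hk),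
      fun k hc => ?_, fun k hc => ?_⟩
    · have h1 := (fgg v v hs hs).1
      refine exH_ini (f := -((M.flB A θ).gg (M.em v) (M.em v) : M.B)) (M := M)
        (h := fun p => -ggf (A p.2) (v p.2) (v p.2) (M.pt p.1)) hT ⟨(fam_ct hM h1).neg,
          fun z t => ?_⟩ fun z => neg_le_neg (hc _ (pt_ne hM z))
      exact (map_neg (M.ev z t) _).trans (congrArg Neg.neg (((hvw v v hv hv).2 z t).1))
    · exact exH_ini (f := M.em v) hT ⟨fam_ct hM hs, fun z t => ((hEM n T hT M hM).1 v hv).2 z t⟩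
        fun z => hc _ (pt_ne hM z)

end Pool.Agent.Helper67.RFn
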