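import Pool.Agent.Helper47.RFn.Alg

/-! # Packet RFn-G1 (MP_c98eff_gt) -/

set_option autoImplicit false

namespace Pool.Agent.Helper47.RFn

open Finset

namespace G1aux

theorem Dab_eq {n : ℕ} (a b : ℝ) (S : T4 n) :
    Dab a b S = (((n : ℝ) - 2) * b ^ 2 - 2 * (a - b) + 2 * a) • wdg (Ric0 S) (Ric0 S)
      + (4 * a * lam S) • wdg (Ric0 S) 1 + (2 * b ^ 2) • wdg (Ric0 S * Ric0 S) 1
      + (2 * a * lam S ^ 2 + sig S / (1 + 2 * ((n : ℝ) - 1) * a) *
        ((n : ℝ) * b ^ 2 * (1 - 2 * b) - 2 * (a - b) * (1 - 2 * b + (n : ℝ) * b ^ 2))) • Id4 n := by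
  have h : Ric S = Ric0 S + lam S • (1 : M2 n) := by
    rw [Ric0]
    simp
  obtain ⟨A, hA⟩ : ∃ A, A = Ric0 S := ⟨_, rfl⟩
  rw [← hA] at h
  rw [Dab, h, ← hA]
  funext i j k l
  simp only [Pi.add_apply, Pi.smul_apply, smul_eq_mul, wdg, Id4, Matrix.add_apply,
    Matrix.smul_apply]
  ring

/-- values of `lam` on `Dab` -/
theorem lam_Dab (hDF : Goal_DF) (hLN : Goal_LN) (hCL : Goal_CL) {n : ℕ} (hn : 3 ≤ n) (a b : ℝ)
    (ha : 0 ≤ a) (hb : 0 ≤ b) (S : T4 n) (hS : IsCurv S) :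
    lam (Dab a b S) = -(2 * b * sig S) + (2 * a * ((n : ℝ) - 1) * lam S ^ 2
      + sig S * ((n : ℝ) ^ 2 * b ^ 2
        - 2 * ((n : ℝ) - 1) * (a - b) * (1 - 2 * b)) / (1 + 2 * ((n : ℝ) - 1) * a)) := by
  have h := (hDF n hn a b ha hb S hS).2
  have hn0 : (n : ℝ) ≠ 0 := by
    have : n ≠ 0 := by omega
    exact_mod_cast this
  obtain ⟨-, -, -, -, -, -, -, -, -, -, htr, -, -, -⟩ := hLN n
  have h0 := htr S (by omega)
  have hsym := ((hCL n).2.2.2.2.2.2.1 S hS).2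
  have hs : ∑ i, (Ric0 S * Ric0 S) i i = (n : ℝ) * sig S := by
    rw [sig, mul_div_cancel₀ _ hn0]
    refine Finset.sum_congr rfl fun i _ => ?_
    rw [Matrix.mul_apply]
    refine Finset.sum_congr rfl fun j _ => ?_
    have := hsym.apply i j
    rw [this, sq]
  have h1 : ∑ i : Fin n, (1 : M2 n) i i = (n : ℝ) := by simp
  rw [Matrix.trace] at h0
  simp only [Matrix.diag_apply] at h0
  rw [lam, h]
  simp only [Matrix.add_apply, Matrix.smul_apply, smul_eq_mul, Finset.sum_add_distrib,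
    ← Finset.mul_sum]
  rw [hs, h0, h1]
  field_simp
  ring

theorem rq_zero {n : ℕ} (A : M2 n) : rq A (0 : Fin n → ℝ) = 0 := by simp [rq]

theorem nrm_zero {n : ℕ} : nrm (0 : Fin n → ℝ) = 0 := by simp [nrm]

theorem nrm_nonneg {n : ℕ} (v : Fin n → ℝ) : 0 ≤ nrm v :=
  Finset.sum_nonneg fun _ _ => sq_nonneg _

end G1aux

open G1aux

theorem goal_G1 (hDG : Goal_DG) (hRB : Goal_RB) (hDF : Goal_DF) (hEV : Goal_EV) (hCB : Goal_CB)
    (hQB : Goal_QB) (hWQ : Goal_WQ) (hLN : Goal_LN) (hCL : Goal_CL) : Goal_G1 := by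
  intro n hn b0 hb0 hb0'
  have hnR : (4 : ℝ) ≤ n := by exact_mod_cast hn
  have hnpos : (0 : ℝ) < n := by linarith
  refine ⟨b0 ^ 3 / (n : ℝ) ^ 4, by positivity, fun b hb hb' => ?_⟩
  have hbpos : 0 < b := hb0.trans_le hb
  obtain ⟨μ, hμ⟩ : ∃ μ : ℝ, μ = ((n : ℝ) - 2) * b ^ 2 := ⟨_, rfl⟩
  obtain ⟨a, ha⟩ : ∃ a : ℝ, a = aF n b := ⟨_, rfl⟩
  obtain ⟨p, hp⟩ : ∃ p : ℝ, p = pF n b := ⟨_, rfl⟩
  rw [← ha, ← hp]
  have hμ0 : 0 < μ := by
    rw [hμ]
    exact mul_pos (by linarith) (by positivity)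
  have h1μ : 0 < 1 + μ := by linarith
  have h2 : 2 * a * (1 + μ) = μ + 2 * b := by
    have e : a = (μ + 2 * b) / (2 * (1 + μ)) := by
      rw [ha, aF, ← hμ]
      congr 1
      rw [hμ]
      ring
    rw [e]
    field_simp
  have h3 : p * (1 + μ) = μ := by
    have e : p = μ / (1 + μ) := by
      rw [hp, pF, ← hμ]
    rw [e]
    field_simp
  have h1 : 2 * (a - b) * (1 + μ) = μ * (1 - 2 * b) := by linear_combination h2
  have h4 : (1 - 2 * a) * (1 + μ) = 1 - 2 * b := by linear_combination -h2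
  have h5 : 2 * (a - b) = μ * (1 - 2 * a) := by
    have : (1 + μ) * (2 * (a - b) - μ * (1 - 2 * a)) = 0 := by linear_combination h1 - μ * h4
    rcases mul_eq_zero.1 this with h | h
    · exact absurd h h1μ.ne'
    · linarith
  have h2b : 0 ≤ 1 - 2 * b := by linarith
  have ha2 : 0 ≤ 1 - 2 * a := by
    by_contra h
    push Not at h
    have := mul_neg_of_neg_of_pos h h1μ
    linarith
  have hab : b ≤ a := by
    have := mul_nonneg hμ0.le ha2
    linarith
  have ha0 : 0 < a := by linarith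
  have hp0 : 0 < p := by
    by_contra h
    push Not at h
    have := mul_nonpos_of_nonpos_of_nonneg h h1μ.le
    linarith
  have hp1 : 0 < 1 - p := by
    by_contra h
    push Not at h
    have h6 : (1 - p) * (1 + μ) = 1 := by linear_combination -h3
    have := mul_nonpos_of_nonpos_of_nonneg h h1μ.le
    linarith
  have h6 : (1 - p) * (1 + μ) = 1 := by linear_combination -h3
  have hμn : 1 + μ ≤ n := by
    have e1 : b ^ 2 ≤ 1 := pow_le_one₀ hbpos.le (by linarith)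
    have e2 := mul_le_mul_of_nonneg_left e1 (show (0 : ℝ) ≤ (n : ℝ) - 2 by linarith)
    linarith
  have hN : 0 < 1 + 2 * ((n : ℝ) - 1) * a := by
    have : 0 ≤ 2 * ((n : ℝ) - 1) * a := by
      apply mul_nonneg
      · linarith
      · exact ha0.le
    linarith
  have hNn : 1 + 2 * ((n : ℝ) - 1) * a ≤ n := by
    have e1 := mul_nonneg (show (0 : ℝ) ≤ (n : ℝ) - 1 by linarith) ha2
    linarith
  have hb2 : b0 ^ 2 ≤ b ^ 2 := pow_le_pow_left₀ hb0.le hb 2
  -- lower bound for `p`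
  have hpb : 2 * b0 ^ 2 / n ≤ p := by
    rw [div_le_iff₀ hnpos]
    have : μ ≤ p * n := by
      rw [← h3]
      exact mul_le_mul_of_nonneg_left hμn hp0.le
    have e1 := mul_le_mul_of_nonneg_right (show (2 : ℝ) ≤ (n : ℝ) - 2 by linarith) (sq_nonneg b)
    linarith
  refine ⟨ha0.le, hbpos.le, hp0.le, by linarith, by positivity, ?_, ?_⟩
  · intro S hS hR z w
    obtain ⟨hl, -, -, -, -⟩ := hCB n (by omega) S hS
    obtain ⟨hsig, hev⟩ := hEV n (by omega) p S hS.1 hp0.le (by linarith) hl hR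
    have hsym := ((hCL n).2.2.2.2.2.2.1 S hS.1).2
    rw [Dab_eq]
    refine hDG n (Ric0 S) _ _ _ _ _ hsym ?_ z w
    intro u v x y hu hv huv hx hy
    have hx1 := hev u x hu hx
    have hy1 := hev v y hv hy
    have hsig0 : 0 ≤ sig S := by
      rw [sig]
      exact div_nonneg (Finset.sum_nonneg fun i _ => Finset.sum_nonneg fun j _ => sq_nonneg _)
        hnpos.le
    have k1 : (n : ℝ) * b ^ 2 * (1 - 2 * b) - 2 * (a - b) * (1 - 2 * b + (n : ℝ) * b ^ 2)
        = (1 - 2 * a) * b ^ 2 * (2 + 2 * ((n : ℝ) - 2) * b) := by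
      linear_combination (-((n : ℝ) * b ^ 2)) * h4 - (1 - 2 * b + (n : ℝ) * b ^ 2) * h5
        - (1 - 2 * a) * (1 - 2 * b) * hμ
    have k2 : 0 ≤ sig S / (1 + 2 * ((n : ℝ) - 1) * a) *
        ((n : ℝ) * b ^ 2 * (1 - 2 * b) - 2 * (a - b) * (1 - 2 * b + (n : ℝ) * b ^ 2)) := by
      rw [k1]
      have : 0 ≤ 2 + 2 * ((n : ℝ) - 2) * b := by
        have : 0 ≤ 2 * ((n : ℝ) - 2) * b := mul_nonneg (by linarith) hbpos.le
        linarith
      positivity
    have k3 : ((n : ℝ) - 2) * b ^ 2 - 2 * (a - b) + 2 * a = 2 * a * (1 + μ) := by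
      rw [h2, hμ]
      ring
    have k4 : 2 * a * (1 + μ) * (x * y) + 4 * a * lam S * ((x + y) / 2) + 2 * a * lam S ^ 2
        = 2 * a * ((1 + μ) * ((x + (1 - p) * lam S) * (y + (1 - p) * lam S)) + p * lam S ^ 2) := by
      linear_combination (-2 * a * lam S * (x + y) - 2 * a * (1 - p) * lam S ^ 2 +
        0) * h6
    have k5 : 0 ≤ (1 + μ) * ((x + (1 - p) * lam S) * (y + (1 - p) * lam S)) :=
      mul_nonneg h1μ.le (mul_nonneg (by linarith) (by linarith))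
    have k6 : b0 ^ 3 / (n : ℝ) ^ 4 * lam S ^ 2 ≤ 2 * a * (p * lam S ^ 2) := by
      have e1 : b0 ^ 3 / (n : ℝ) ^ 4 ≤ 2 * a * p := by
        have e2 : b0 * (2 * b0 ^ 2 / n) ≤ a * p :=
          mul_le_mul (by linarith) hpb (by positivity) ha0.le
        have e3 : b0 ^ 3 / (n : ℝ) ^ 4 ≤ b0 * (2 * b0 ^ 2 / n) := by
          rw [div_le_iff₀ (by positivity)]
          have e4 : b0 * (2 * b0 ^ 2 / n) * (n : ℝ) ^ 4 = 2 * b0 ^ 3 * (n : ℝ) ^ 3 := by
            field_simp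
          rw [e4]
          have e5 : (1 : ℝ) ≤ (n : ℝ) ^ 3 := one_le_pow₀ (by linarith)
          have e6 := mul_le_mul_of_nonneg_left e5 (pow_pos hb0 3).le
          have e7 := pow_pos hb0 3
          linarith
        have e8 := mul_pos ha0 hp0
        linarith
      have := mul_le_mul_of_nonneg_right e1 (sq_nonneg (lam S))
      linarith
    have k7 : 0 ≤ 2 * b ^ 2 * ((x ^ 2 + y ^ 2) / 2) := by positivity
    rw [k3]
    have k8 := mul_nonneg (mul_nonneg zero_le_two ha0.le) k5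
    have k9 : 2 * a * (1 + μ) * (x * y) + 4 * a * lam S * ((x + y) / 2) + 2 * a * lam S ^ 2
        = 2 * a * ((1 + μ) * ((x + (1 - p) * lam S) * (y + (1 - p) * lam S)))
          + 2 * a * (p * lam S ^ 2) := by
      rw [k4]
      ring
    linarith
  · intro S hS hR v hv
    obtain ⟨hr1, hr2, hr3, hr4⟩ := hRB n (by omega) p S hp0.le (by linarith) hS hR v hv
    obtain ⟨-, -, hRa, -, hla, -, -, -, -, -, -, hqa, hqs, hq1⟩ := hLN n
    rcases eq_or_ne v 0 with rfl | hv0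
    · rw [rq_zero, nrm_zero]
      simp
    have hs := hr2 hv0
    have hlQ := (hQB n).2.2.2.2.2.2 S hS.1 (by omega)
    have hRD := (hDF n (by omega) a b ha0.le hbpos.le S hS.1).2
    have hlD := lam_Dab hDF hLN hCL (n := n) (by omega) a b ha0.le hbpos.le S hS.1
    rw [hRa, hqa, hla, hlQ, hlD, hRD, hqa, hqa, hqs, hqs, hqs, hq1, hr3, hr4]
    obtain ⟨κ, hκ⟩ : ∃ κ : ℝ, κ = ((n : ℝ) ^ 2 * b ^ 2
        - 2 * ((n : ℝ) - 1) * (a - b) * (1 - 2 * b)) / (1 + 2 * ((n : ℝ) - 1) * a) := ⟨_, rfl⟩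
    have hκ2 : sig S * ((n : ℝ) ^ 2 * b ^ 2
        - 2 * ((n : ℝ) - 1) * (a - b) * (1 - 2 * b)) / (1 + 2 * ((n : ℝ) - 1) * a) = sig S * κ := by
      rw [hκ, mul_div_assoc]
    rw [hκ2]
    have hN0 := nrm_nonneg v
    have hκ3 : κ - μ * (1 - 2 * b) = b ^ 2 * n * (2 + 2 * ((n : ℝ) - 2) * b)
        / (1 + 2 * ((n : ℝ) - 1) * a) := by
      rw [hκ, eq_div_iff hN.ne', sub_mul, div_mul_cancel₀ _ hN.ne']
      have e1 : 2 * ((n : ℝ) - 1) * (a - b) * (1 - 2 * b)
          = ((n : ℝ) - 1) * (μ * (1 - 2 * a)) * (1 - 2 * b) := by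
        rw [← h5]
        ring
      rw [e1, hμ]
      ring
    have hκ4 : 2 * b ^ 2 ≤ κ - μ * (1 - 2 * b) := by
      rw [hκ3, le_div_iff₀ hN]
      have e1 : 0 ≤ 2 * ((n : ℝ) - 2) * b := mul_nonneg (by linarith) hbpos.le
      have e2 : 0 ≤ b ^ 2 * n * (2 * ((n : ℝ) - 2) * b) := by positivity
      have e3 : b ^ 2 * (1 + 2 * ((n : ℝ) - 1) * a) ≤ b ^ 2 * n :=
        mul_le_mul_of_nonneg_left hNn (sq_nonneg _)
      linarith
    have total : p ^ 2 * lam S ^ 2 * nrm v +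
        (-(2 * b) * ((1 - p) ^ 2 * lam S ^ 2 * nrm v) +
          2 * a * ((n : ℝ) - 2) * lam S * (-((1 - p) * lam S) * nrm v) +
          (2 * a * ((n : ℝ) - 1) * lam S ^ 2 + sig S * κ) * nrm v) -
        p * (lam S ^ 2 + sig S + (-(2 * b * sig S) +
          (2 * a * ((n : ℝ) - 1) * lam S ^ 2 + sig S * κ))) * nrm v
        = (1 - p) * (sig S * (κ - μ * (1 - 2 * b))) * nrm v := by
      have e1 : -p - 2 * b * (1 - p) + 2 * a = 0 := by
        have : (1 + μ) * (-p - 2 * b * (1 - p) + 2 * a) = 0 := by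
          linear_combination h2 - h3 - 2 * b * h6
        rcases mul_eq_zero.1 this with h | h
        · exact absurd h h1μ.ne'
        · exact h
      have e2 : p * (1 - 2 * b) = (1 - p) * (μ * (1 - 2 * b)) := by
        have : (1 + μ) * (p * (1 - 2 * b) - (1 - p) * (μ * (1 - 2 * b))) = 0 := by
          linear_combination (1 - 2 * b) * h3 - μ * (1 - 2 * b) * h6
        rcases mul_eq_zero.1 this with h | h
        · exact absurd h h1μ.ne'
        · linarith
      linear_combination ((1 - p) * lam S ^ 2 * nrm v) * e1 - (sig S * nrm v) * e2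
    have fin : b0 ^ 3 / (n : ℝ) ^ 4 * lam S ^ 2 * nrm v
        ≤ (1 - p) * (sig S * (κ - μ * (1 - 2 * b))) * nrm v := by
      refine mul_le_mul_of_nonneg_right ?_ hN0
      have e0 : (1 : ℝ) / n ≤ 1 - p := by
        rw [div_le_iff₀ hnpos]
        have e9 := mul_le_mul_of_nonneg_left hμn hp1.le
        linarith
      have e1 : (1 : ℝ) / n ^ 3 * lam S ^ 2 ≤ sig S := by
        refine le_trans ?_ hs
        have e3 : (1 : ℝ) / n ^ 3 * lam S ^ 2 = (1 / n) ^ 2 * lam S ^ 2 / n := by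
          field_simp
        rw [e3]
        have e4 : ((1 : ℝ) / n) ^ 2 ≤ (1 - p) ^ 2 := by
          apply pow_le_pow_left₀ (by positivity) e0
        gcongr
      have e2 : (1 : ℝ) / n * ((1 : ℝ) / n ^ 3 * lam S ^ 2 * (2 * b0 ^ 2))
          ≤ (1 - p) * (sig S * (κ - μ * (1 - 2 * b))) := by
        have hsig : 0 ≤ sig S := le_trans (by positivity) e1
        refine mul_le_mul e0 ?_ (by positivity) hp1.le
        exact mul_le_mul e1 (by linarith) (by positivity) hsig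
      refine le_trans ?_ e2
      have e5 : (1 : ℝ) / n * ((1 : ℝ) / n ^ 3 * lam S ^ 2 * (2 * b0 ^ 2))
          = 2 * b0 ^ 2 / n ^ 4 * lam S ^ 2 := by
        field_simp
      rw [e5]
      refine mul_le_mul_of_nonneg_right ?_ (sq_nonneg _)
      apply div_le_div_of_nonneg_right _ (by positivity)
      have e6 : b0 * b0 ^ 2 ≤ 1 * b0 ^ 2 :=
        mul_le_mul_of_nonneg_right (by linarith) (sq_nonneg _)
      have e7 : b0 ^ 3 = b0 * b0 ^ 2 := by ring
      have e8 := sq_nonneg b0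
      rw [e7]
      linarith
    rw [← total] at fin
    exact fin.trans (sub_le_sub_right (add_le_add hr1 le_rfl) _)

end Pool.Agent.Helper47.RFn
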