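import Pool.Agent.Helper47.RFn.Mod

/-!
# Packet MA3 of project RFn (helper47): commutators of the tangent fields
-/

set_option autoImplicit false

namespace Pool.Agent.Helper47.RFn

open Finset

namespace MA3

/-- the linear part of a tangent field -/
noncomputable def lin {n : ℕ} (η ζ ξ : Ix n → Ix n → ℝ) : WW n →ₗ[ℝ] WW n where
  toFun := fld η ζ ξ 0
  map_add' p q := by
    refine Prod.ext ?_ (Prod.ext ?_ ?_)
    · ext i
      simp only [fld, Prod.fst_add, PiLp.add_apply, mul_add, Finset.sum_add_distrib]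
    · funext a b
      simp only [fld, Prod.snd_add, Prod.fst_add, Pi.add_apply, ← Finset.sum_add_distrib]
      exact Finset.sum_congr rfl fun c _ => by ring
    · simp [fld]
  map_smul' r p := by
    refine Prod.ext ?_ (Prod.ext ?_ ?_)
    · ext i
      simp only [fld, Prod.smul_fst, PiLp.smul_apply, smul_eq_mul, RingHom.id_apply, Finset.mul_sum]
      exact Finset.sum_congr rfl fun c _ => by ring
    · funext a b
      simp only [fld, Prod.smul_snd, Prod.smul_fst, Pi.smul_apply, smul_eq_mul, RingHom.id_apply,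
        Finset.mul_sum]
      exact Finset.sum_congr rfl fun c _ => by ring
    · simp [fld]

theorem fld_eq {n : ℕ} (η ζ ξ : Ix n → Ix n → ℝ) (d : ℝ) (p : WW n) :
    fld η ζ ξ d p = fld η ζ ξ 0 p + ((0 : EE n), (0 : Ix n → Ix n → ℝ), d) := by
  refine Prod.ext ?_ (Prod.ext ?_ ?_)
  · simp [fld]
  · simp [fld]
  · simp [fld]

theorem hasFDerivAt_fld {n : ℕ} (η ζ ξ : Ix n → Ix n → ℝ) (d : ℝ) (p : WW n) :
    HasFDerivAt (fld η ζ ξ d) (LinearMap.toContinuousLinearMap (lin η ζ ξ)) p := by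
  have h1 : fld η ζ ξ d = fun p => LinearMap.toContinuousLinearMap (lin η ζ ξ) p +
      ((0 : EE n), (0 : Ix n → Ix n → ℝ), d) := by
    funext q
    rw [fld_eq]
    rfl
  rw [h1]
  exact (LinearMap.toContinuousLinearMap (lin η ζ ξ)).hasFDerivAt.add_const _

theorem lin_sub {n : ℕ} (η ζ ξ η' ζ' ξ' : Ix n → Ix n → ℝ) (d d' : ℝ) (p : WW n) :
    fld η' ζ' ξ' 0 (fld η ζ ξ d p) - fld η ζ ξ 0 (fld η' ζ' ξ' d' p) =
      fld (fun a b => - ∑ c, (η a c * η' c b - η' a c * η c b))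
        (fun a b => - ∑ c, (ζ a c * ζ' c b - ζ' a c * ζ c b))
        (fun a b => ∑ c, (ξ a c * ξ' c b - ξ' a c * ξ c b)) 0 p := by
  refine Prod.ext ?_ (Prod.ext ?_ ?_)
  · ext i
    change (∑ j, η' i j * ∑ k, η j k * p.1 k) - (∑ j, η i j * ∑ k, η' j k * p.1 k) =
      ∑ j, (- ∑ c, (η i c * η' c j - η' i c * η c j)) * p.1 j
    have e1 : ∀ (x y : Ix n → Ix n → ℝ), (∑ j, x i j * ∑ k, y j k * p.1 k) =
        ∑ j, (∑ c, x i c * y c j) * p.1 j := by
      intro x y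
      simp only [Finset.mul_sum, Finset.sum_mul]
      rw [Finset.sum_comm]
      exact Finset.sum_congr rfl fun j _ => Finset.sum_congr rfl fun c _ => by ring
    rw [e1, e1, ← Finset.sum_sub_distrib]
    refine Finset.sum_congr rfl fun j _ => ?_
    rw [Finset.sum_sub_distrib]
    ring
  · funext a b
    change (∑ c, (ζ' a c * (∑ k, (ζ c k * p.2.1 k b + p.2.1 c k * ξ k b)) +
        (∑ k, (ζ a k * p.2.1 k c + p.2.1 a k * ξ k c)) * ξ' c b)) -
      (∑ c, (ζ a c * (∑ k, (ζ' c k * p.2.1 k b + p.2.1 c k * ξ' k b)) +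
        (∑ k, (ζ' a k * p.2.1 k c + p.2.1 a k * ξ' k c)) * ξ c b)) =
      ∑ c, ((- ∑ k, (ζ a k * ζ' k c - ζ' a k * ζ k c)) * p.2.1 c b +
        p.2.1 a c * ∑ k, (ξ c k * ξ' k b - ξ' c k * ξ k b))
    have e1 : ∀ (z x z' x' : Ix n → Ix n → ℝ), (∑ c, (z' a c * (∑ k, (z c k * p.2.1 k b +
        p.2.1 c k * x k b)) + (∑ k, (z a k * p.2.1 k c + p.2.1 a k * x k c)) * x' c b)) =
        (∑ c, (∑ k, z' a k * z k c) * p.2.1 c b) + (∑ c, ∑ k, z' a c * p.2.1 c k * x k b) +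
        (∑ c, ∑ k, z a c * p.2.1 c k * x' k b) + ∑ c, p.2.1 a c * ∑ k, x c k * x' k b := by
      intro z x z' x'
      have t1 : (∑ c, (∑ k, z' a k * z k c) * p.2.1 c b) = ∑ c, ∑ k, z' a c * (z c k * p.2.1 k b) := by
        simp only [Finset.sum_mul]
        rw [Finset.sum_comm]
        exact Finset.sum_congr rfl fun j _ => Finset.sum_congr rfl fun c _ => by ring
      have t2 : (∑ c, ∑ k, z a c * p.2.1 c k * x' k b) = ∑ c, ∑ k, z a k * p.2.1 k c * x' c b := by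
        rw [Finset.sum_comm]
      have t3 : (∑ c, p.2.1 a c * ∑ k, x c k * x' k b) = ∑ c, ∑ k, p.2.1 a k * x k c * x' c b := by
        simp only [Finset.mul_sum]
        rw [Finset.sum_comm]
        exact Finset.sum_congr rfl fun j _ => Finset.sum_congr rfl fun c _ => by ring
      rw [t1, t2, t3, ← Finset.sum_add_distrib, ← Finset.sum_add_distrib,
        ← Finset.sum_add_distrib]
      refine Finset.sum_congr rfl fun c _ => ?_
      rw [← Finset.sum_add_distrib, ← Finset.sum_add_distrib, ← Finset.sum_add_distrib,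
        Finset.mul_sum, Finset.sum_mul, ← Finset.sum_add_distrib]
      exact Finset.sum_congr rfl fun k _ => by ring
    rw [e1, e1]
    have e2 : (∑ c, ((- ∑ k, (ζ a k * ζ' k c - ζ' a k * ζ k c)) * p.2.1 c b +
        p.2.1 a c * ∑ k, (ξ c k * ξ' k b - ξ' c k * ξ k b))) =
        (∑ c, (∑ k, ζ' a k * ζ k c) * p.2.1 c b) - (∑ c, (∑ k, ζ a k * ζ' k c) * p.2.1 c b) +
        ((∑ c, p.2.1 a c * ∑ k, ξ c k * ξ' k b) - ∑ c, p.2.1 a c * ∑ k, ξ' c k * ξ k b) := by
      rw [← Finset.sum_sub_distrib, ← Finset.sum_sub_distrib, ← Finset.sum_add_distrib]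
      refine Finset.sum_congr rfl fun c _ => ?_
      rw [Finset.sum_sub_distrib, Finset.sum_sub_distrib]
      ring
    rw [e2]
    ring
  · simp [fld]

theorem sk_br {n : ℕ} {η η' : Ix n → Ix n → ℝ} (h : Sk η) (h' : Sk η') :
    Sk (fun a b => ∑ c, (η a c * η' c b - η' a c * η c b)) := by
  intro a b
  change (∑ c, (η a c * η' c b - η' a c * η c b)) = - ∑ c, (η b c * η' c a - η' b c * η c a)
  rw [← Finset.sum_neg_distrib]
  refine Finset.sum_congr rfl fun c _ => ?_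
  rw [h a c, h' c b, h' a c, h c b]
  ring

theorem sk_neg {n : ℕ} {η : Ix n → Ix n → ℝ} (h : Sk η) : Sk (fun a b => - η a b) := by
  intro a b
  change - η a b = - - η b a
  rw [h a b]

end MA3

open MA3 in
theorem goal_MA3 (hMA2 : Goal_MA2) : Goal_MA3 := by
  intro n T η ζ ξ η' ζ' ξ' d d' hη hζ hξ hη' hζ' hξ' f hf
  obtain ⟨O, F, hF⟩ := hf
  have key := (hMA2 n T).1
  funext p
  have hO : O ∈ nhds (emW p) := hF.op.mem_nhds (hF.mem p)
  have h2 : ContDiffAt ℝ oo F (emW p) := hF.cd.contDiffAt hO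
  have h3 : ContDiffAt ℝ oo (fderiv ℝ F) (emW p) := h2.fderiv_right (by simp)
  have h4 : HasFDerivAt (fderiv ℝ F) (fderiv ℝ (fderiv ℝ F) (emW p)) (emW p) :=
    (h3.differentiableAt (by simp)).hasFDerivAt
  have h5 : IsSymmSndFDerivAt ℝ F (emW p) := h2.isSymmSndFDerivAt (by
    simp only [minSmoothness_of_isRCLikeNormedField]
    exact WithTop.coe_le_coe.2 le_top)
  have e1 : ∀ (x y z x' y' z' : Ix n → Ix n → ℝ) (c c' : ℝ), Sk x → Sk y → Sk z → Sk x' → Sk y' →
      Sk z' → derf x y z c (derf x' y' z' c' f) p =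
        fderiv ℝ (fderiv ℝ F) (emW p) (fld x y z c (emW p)) (fld x' y' z' c' (emW p)) +
          fderiv ℝ F (emW p) (fld x' y' z' 0 (fld x y z c (emW p))) := by
    intro x y z x' y' z' c c' hx hy hz hx' hy' hz'
    have k1 := (key x' y' z' c' hx' hy' hz' f O F hF).2
    rw [(key x y z c hx hy hz _ O _ k1).1 p]
    have k2 := h4.clm_apply (hasFDerivAt_fld x' y' z' c' (emW p))
    rw [k2.fderiv]
    change fderiv ℝ F (emW p) (fld x' y' z' 0 (fld x y z c (emW p))) +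
      fderiv ℝ (fderiv ℝ F) (emW p) (fld x y z c (emW p)) (fld x' y' z' c' (emW p)) = _
    rw [add_comm]
  rw [Pi.sub_apply, e1 η ζ ξ η' ζ' ξ' d d' hη hζ hξ hη' hζ' hξ',
    e1 η' ζ' ξ' η ζ ξ d' d hη' hζ' hξ' hη hζ hξ,
    (key _ _ _ 0 (sk_neg (sk_br hη hη')) (sk_neg (sk_br hζ hζ')) (sk_br hξ hξ') f O F hF).1 p,
    ← lin_sub η ζ ξ η' ζ' ξ' d d' (emW p), map_sub,
    h5.eq (fld η ζ ξ d (emW p)) (fld η' ζ' ξ' d' (emW p))]
  ring

end Pool.Agent.Helper47.RFn
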